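import Pool.Agent.Helper80.AD.GoalsA

/-!
# Project AD, packet EEM: multilinearity of `EE`.
-/

set_option autoImplicit false

noncomputable section

namespace Pool.Agent.Helper61.AD

open Pool.Agent.Helper80.AD

/-- `EE` as a sum over a common finite set that contains the supports -/
theorem EE_eq {B : Type} {k : ℕ} (E : (Fin (k + 1) → B) → ℝ) (c : Fin (k + 1) → B →₀ ℝ) (S : Finset B)
    (hS : ∀ j, (c j).support ⊆ S) :
    EE E c = ∑ J ∈ Fintype.piFinset (fun _ : Fin (k + 1) => S), (∏ j, c j (J j)) * E J := by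
  unfold EE
  refine Finset.sum_subset (Fintype.piFinset_subset _ _ hS) fun J _ hJ' => ?_
  have : ∃ j, c j (J j) = 0 := by
    by_contra hcon
    push Not at hcon
    exact hJ' (Fintype.mem_piFinset.2 fun j => Finsupp.mem_support_iff.2 (hcon j))
  obtain ⟨j, hj⟩ := this
  rw [Finset.prod_eq_zero (Finset.mem_univ j) hj, zero_mul]

theorem EE_lin {B : Type} {k : ℕ} (E : (Fin (k + 1) → B) → ℝ) (ι : Type) [Fintype ι]
    (t : Fin (k + 1) → ι → ℝ) (c : Fin (k + 1) → ι → B →₀ ℝ) :
    EE E (fun j => ∑ i, t j i • c j i) =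
      ∑ I : Fin (k + 1) → ι, (∏ j, t j (I j)) * EE E (fun j => c j (I j)) := by
  classical
  set S : Finset B := (Finset.univ : Finset (Fin (k + 1) × ι)).biUnion fun p => (c p.1 p.2).support with hSdef
  have hS1 : ∀ j i, (c j i).support ⊆ S := fun j i =>
    Finset.subset_biUnion_of_mem (fun p : Fin (k + 1) × ι => (c p.1 p.2).support) (Finset.mem_univ (j, i))
  have hS2 : ∀ j, (∑ i, t j i • c j i).support ⊆ S := by
    intro j
    refine (Finsupp.support_finsetSum).trans ?_
    refine Finset.biUnion_subset.2 fun i _ => ?_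
    exact (Finsupp.support_smul).trans (hS1 j i)
  rw [EE_eq E _ S hS2]
  have h1 : ∀ I : Fin (k + 1) → ι, EE E (fun j => c j (I j)) =
      ∑ J ∈ Fintype.piFinset (fun _ : Fin (k + 1) => S), (∏ j, c j (I j) (J j)) * E J :=
    fun I => EE_eq E _ S fun j => hS1 j (I j)
  simp_rw [h1, Finset.mul_sum]
  rw [Finset.sum_comm]
  refine Finset.sum_congr rfl fun J _ => ?_
  have h2 : ∀ j, (∑ i, t j i • c j i) (J j) = ∑ i, t j i * c j i (J j) := by
    intro j
    rw [Finsupp.finsetSum_apply]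
    refine Finset.sum_congr rfl fun i _ => ?_
    rw [Finsupp.smul_apply, smul_eq_mul]
  simp_rw [h2]
  rw [Fintype.prod_sum, Finset.sum_mul]
  refine Finset.sum_congr rfl fun I _ => ?_
  rw [Finset.prod_mul_distrib, mul_assoc]

theorem EE_single {B : Type} {k : ℕ} (E : (Fin (k + 1) → B) → ℝ) (b : Fin (k + 1) → B) :
    EE E (fun j => Finsupp.single (b j) 1) = E b := by
  unfold EE
  have h1 : (Fintype.piFinset fun j => (Finsupp.single (b j) (1 : ℝ)).support) = {b} := by
    ext J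
    rw [Fintype.mem_piFinset, Finset.mem_singleton]
    simp only [Finsupp.support_single _ (one_ne_zero (α := ℝ)), Finset.mem_singleton]
    exact ⟨fun h => funext h, fun h j => by rw [h]⟩
  rw [h1, Finset.sum_singleton]
  simp

theorem EE_nonneg {B : Type} {k : ℕ} (E : (Fin (k + 1) → B) → ℝ) (hE : ∀ Y, 0 ≤ E Y)
    (c : Fin (k + 1) → B →₀ ℝ) (hc : ∀ j b, 0 ≤ c j b) : 0 ≤ EE E c :=
  Finset.sum_nonneg fun J _ => mul_nonneg (Finset.prod_nonneg fun j _ => hc j (J j)) (hE J)

theorem EE_symm {B : Type} {k : ℕ} (E : (Fin (k + 1) → B) → ℝ)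
    (hE : ∀ (σ : Equiv.Perm (Fin (k + 1))) (Y : Fin (k + 1) → B), E (Y ∘ σ) = E Y)
    (σ : Equiv.Perm (Fin (k + 1))) (c : Fin (k + 1) → B →₀ ℝ) : EE E (c ∘ σ) = EE E c := by
  classical
  set S : Finset B := (Finset.univ : Finset (Fin (k + 1))).biUnion fun j => (c j).support with hSdef
  have hS1 : ∀ j, (c j).support ⊆ S := fun j =>
    Finset.subset_biUnion_of_mem (fun j : Fin (k + 1) => (c j).support) (Finset.mem_univ j)
  rw [EE_eq E c S hS1, EE_eq E (c ∘ σ) S fun j => hS1 (σ j)]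
  refine Finset.sum_nbij' (fun J => J ∘ σ.symm) (fun J => J ∘ σ) ?_ ?_ ?_ ?_ ?_
  · intro J hJ
    rw [Fintype.mem_piFinset] at hJ ⊢
    exact fun j => hJ (σ.symm j)
  · intro J hJ
    rw [Fintype.mem_piFinset] at hJ ⊢
    exact fun j => hJ (σ j)
  · intro J _
    funext j
    simp
  · intro J _
    funext j
    simp
  · intro J _
    have h1 := hE σ (J ∘ σ.symm)
    have h2 : (J ∘ σ.symm) ∘ σ = J := by
      funext j
      simp
    rw [h2] at h1
    rw [h1]
    congr 1
    rw [← Equiv.prod_comp σ (fun j => c j ((J ∘ σ.symm) j))]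
    refine Finset.prod_congr rfl fun j _ => ?_
    simp

/-- PACKET EEM -/
theorem eem : S_EEM := fun _ _ E =>
  ⟨fun ι _ t c => EE_lin E ι t c, fun b => EE_single E b, fun hE c hc => EE_nonneg E hE c hc,
    fun hE σ c => EE_symm E hE σ c⟩

end Pool.Agent.Helper61.AD
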