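import Pool.Agent.Helper80.AD.GoalsA
import Pool.Agent.Helper80.AD.Le

/-!
# Project AD, packet GROW: intersection numbers of limits.
-/

set_option autoImplicit false

open Filter Topology

noncomputable section

namespace Pool.Agent.Helper61.AD

open Pool.Agent.Helper80.AD

/-- a continuous function is bounded below at `a` if it is at the rational points above `a` -/
theorem rat_limit {ι : Type} [Fintype ι] (F : (ι → ℝ) → ℝ) (hF : Continuous F) (a : ι → ℝ) (b : ℝ)
    (h : ∀ q : ι → ℚ, (∀ i, a i < (q i : ℝ)) → b ≤ F (fun i => (q i : ℝ))) : b ≤ F a := by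
  choose s _ hs2 hs3 using fun i => Real.exists_seq_rat_strictAnti_tendsto (a i)
  have h1 : Tendsto (fun n : ℕ => fun i => ((s i n : ℚ) : ℝ)) atTop (𝓝 a) := tendsto_pi_nhds.2 hs3
  exact ge_of_tendsto' ((hF.tendsto a).comp h1) fun n => h (fun i => s i n) fun i => hs2 i n

theorem EE_smul (hEEM : S_EEM) {B : Type} {k : ℕ} (E : (Fin (k + 1) → B) → ℝ) (t : Fin (k + 1) → ℝ)
    (c : Fin (k + 1) → B →₀ ℝ) : EE E (fun j => t j • c j) = (∏ j, t j) * EE E c := by
  have h := (hEEM k B E).1 Unit (fun j _ => t j) (fun j _ => c j)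
  simpa using h

theorem EE_cont (hEEM : S_EEM) {B : Type} {k : ℕ} (E : (Fin (k + 1) → B) → ℝ) (c : Fin (k + 1) → B →₀ ℝ)
    (ref : B →₀ ℝ) : Continuous fun ε : ℝ => EE E (fun j => c j + ε • ref) := by
  have h : ∀ ε : ℝ, EE E (fun j => c j + ε • ref) =
      ∑ I : Fin (k + 1) → Bool, (∏ j, (if I j then 1 else ε)) * EE E (fun j => if I j then c j else ref) := by
    intro ε
    have h1 := (hEEM k B E).1 Bool (fun _ b => if b then 1 else ε) (fun j b => if b then c j else ref)
    rw [← h1]
    congr 1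
    funext j
    simp
  simp_rw [h]
  refine continuous_finsetSum _ fun I _ => ?_
  refine Continuous.mul_const ?_ _
  refine continuous_finsetProd _ fun j _ => ?_
  cases I j
  · exact continuous_id
  · exact continuous_const

/-- the set of the values at the admissible tuples -/
def Adm {B P ι : Type} {k : ℕ} (h : B → P → ℝ) (Pr : AddSubgroup (P → ℝ)) (E : (Fin (k + 1) → B) → ℝ)
    (u : ι → P → ℝ) (I : Fin (k + 1) → ι) : Set ℝ :=
  {r | ∃ c : Fin (k + 1) → B →₀ ℝ, (∀ j b, 0 ≤ c j b) ∧ (∀ j, Le' Pr (u (I j)) (hc h (c j))) ∧ EE E c = r}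

/-- PACKET GROW -/
theorem grow (hEEM : S_EEM) (hMONO : S_MONO) : S_GROW := by
  intro k B P h Pr E hMF ι _ u ref href hu hL
  have hbdd : ∀ I, ∀ r ∈ Adm h Pr E u I, 0 ≤ r := by
    rintro I r ⟨c, hc0, _, rfl⟩
    exact (hEEM k B E).2.2.1 hMF.nn c hc0
  have hne : ∀ I, (Adm h Pr E u I).Nonempty := by
    intro I
    choose c hc0 hc1 _ using fun i => hL i 1 one_pos
    exact ⟨_, fun j => c (I j), fun j => hc0 (I j), fun j => hc1 (I j), rfl⟩
  have hb : ∀ (I : Fin (k + 1) → ι) (c : Fin (k + 1) → B →₀ ℝ), (∀ j b, 0 ≤ c j b) →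
        (∀ j, Le' Pr (u (I j)) (hc h (c j))) → sInf (Adm h Pr E u I) ≤ EE E c := fun I c hc0 hc1 =>
    csInf_le ⟨0, fun r hr => hbdd I r hr⟩ ⟨c, hc0, hc1, rfl⟩
  refine ⟨fun I => sInf (Adm h Pr E u I), fun I => le_csInf (hne I) (hbdd I), hb, ?_, ?_⟩
  · intro x t κ hx ht hκ hle I
    have key : sInf (Adm h Pr E u I) ≤ (∏ j : Fin (k + 1), ((t (I j))⁻¹ * κ)) * EE E (fun _ => x) := by
      refine rat_limit (fun a : ι → ℝ => (∏ j : Fin (k + 1), (a (I j) * κ)) * EE E (fun _ => x)) ?_
        (fun i => (t i)⁻¹) _ ?_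
      · refine Continuous.mul_const ?_ _
        refine continuous_finsetProd _ fun j _ => ?_
        have hcj : Continuous fun a : ι → ℝ => a (I j) := continuous_apply (I j)
        exact hcj.mul_const κ
      · intro q hq
        have hq0 : ∀ i, (0 : ℝ) < q i := fun i => (inv_pos.2 (ht i)).trans (hq i)
        show _ ≤ (∏ j : Fin (k + 1), ((q (I j) : ℝ) * κ)) * EE E (fun _ => x)
        rw [← EE_smul hEEM E (fun j => (q (I j) : ℝ) * κ) (fun _ => x)]
        refine hb I _ ?_ ?_
        · intro j b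
          rw [Finsupp.smul_apply, smul_eq_mul]
          exact mul_nonneg (mul_nonneg (hq0 _).le hκ) (hx b)
        · intro j
          have hqr : (0 : ℚ) ≤ q (I j) := by exact_mod_cast (hq0 (I j)).le
          refine ((hle (I j)).qmul hqr).mono (fun v => ?_) (fun v => ?_)
          · have h1 : 1 ≤ (q (I j) : ℝ) * t (I j) := by
              have h2 := mul_le_mul_of_nonneg_right (hq (I j)).le (ht (I j)).le
              rwa [inv_mul_cancel₀ (ht (I j)).ne'] at h2
            calc u (I j) v = 1 * u (I j) v := (one_mul _).symm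
              _ ≤ ((q (I j) : ℝ) * t (I j)) * u (I j) v := mul_le_mul_of_nonneg_right h1 (hu _ _)
              _ = _ := by ring
          · rw [hc_smul]
            exact le_of_eq (by ring)
    have h1 : (∏ j : Fin (k + 1), ((t (I j))⁻¹ * κ)) = (∏ j, t (I j))⁻¹ * κ ^ (k + 1) := by
      rw [Finset.prod_mul_distrib, Finset.prod_const, Finset.card_univ, Fintype.card_fin, Finset.prod_inv_distrib]
    have key' : sInf (Adm h Pr E u I) ≤ ((∏ j, t (I j))⁻¹ * κ ^ (k + 1)) * EE E (fun _ => x) := by
      rw [← h1]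
      exact key
    have hp : 0 < ∏ j, t (I j) := Finset.prod_pos fun j _ => ht _
    have h2 := mul_le_mul_of_nonneg_left key' hp.le
    refine h2.trans (le_of_eq ?_)
    field_simp
  · intro x t κ hx ht hκ hle
    -- step 1
    have step1 : ∀ c : ι → B →₀ ℝ, (∀ i b, 0 ≤ c i b) → (∀ i, Le' Pr (u i) (hc h (c i))) →
        EE E (fun _ => x) ≤ ∑ I : Fin (k + 1) → ι, (∏ j, (κ * t (I j))) * EE E (fun j => c (I j)) := by
      intro c hc0 hc1
      have key : EE E (fun _ => x) ≤
          ∑ I : Fin (k + 1) → ι, (∏ j, (κ * t (I j))) * EE E (fun j => c (I j)) := by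
        refine rat_limit (fun a : ι → ℝ => ∑ I : Fin (k + 1) → ι, (∏ j, a (I j)) * EE E (fun j => c (I j))) ?_
          (fun i => κ * t i) _ ?_
        · refine continuous_finsetSum _ fun I _ => ?_
          refine Continuous.mul_const ?_ _
          refine continuous_finsetProd _ fun j _ => ?_
          exact continuous_apply (I j)
        · intro q hq
          have hq0 : ∀ i, (0 : ℝ) < q i := fun i => (mul_nonneg hκ (ht i).le).trans_lt (hq i)
          show _ ≤ ∑ I : Fin (k + 1) → ι, (∏ j, (q (I j) : ℝ)) * EE E (fun j => c (I j))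
          rw [← (hEEM k B E).1 ι (fun _ i => (q i : ℝ)) (fun _ i => c i)]
          refine hMONO k B P h Pr E hMF _ _ (fun _ b => hx b) (fun _ b => ?_) (fun _ => ?_)
          · rw [Finsupp.finsetSum_apply]
            refine Finset.sum_nonneg fun i _ => ?_
            rw [Finsupp.smul_apply, smul_eq_mul]
            exact mul_nonneg (hq0 i).le (hc0 i b)
          · have h1 : Le' Pr (fun v => κ * ∑ i, t i * u i v) (fun v => ∑ i, (q i : ℝ) * u i v) := by
              refine Le'.of_le fun v => ?_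
              rw [Finset.mul_sum]
              refine Finset.sum_le_sum fun i _ => ?_
              rw [← mul_assoc]
              exact mul_le_mul_of_nonneg_right (hq i).le (hu i v)
            have h2 : Le' Pr (fun v => ∑ i, (q i : ℝ) * u i v) (fun v => ∑ i, (q i : ℝ) * hc h (c i) v) := by
              refine Le'.sum Finset.univ fun i _ => ?_
              have hqr : (0 : ℚ) ≤ q i := by exact_mod_cast (hq0 i).le
              exact (hc1 i).qmul hqr
            have h3 : Le' Pr (fun v => ∑ i, (q i : ℝ) * hc h (c i) v) (hc h (∑ i, (q i : ℝ) • c i)) := by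
              refine Le'.of_le fun v => ?_
              rw [hc_sum]
              refine le_of_eq (Finset.sum_congr rfl fun i _ => ?_)
              rw [hc_smul]
            exact hle.trans (h1.trans (h2.trans h3))
      exact key
    -- step 2
    choose! c hc0 hc1 hc2 using hL
    have step2 : ∀ δ : ℝ, 0 < δ → ∀ I : Fin (k + 1) → ι, ∀ᶠ ε in 𝓝[>] (0 : ℝ),
        EE E (fun j => c (I j) ε) ≤ sInf (Adm h Pr E u I) + δ := by
      intro δ hδ I
      obtain ⟨r, ⟨c', hc'0, hc'1, rfl⟩, hr⟩ := exists_lt_of_csInf_lt (hne I)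
        (show sInf (Adm h Pr E u I) < sInf (Adm h Pr E u I) + δ by linarith)
      have hcont := EE_cont hEEM E c' ref
      have h0 : EE E (fun j => c' j + (0 : ℝ) • ref) = EE E c' := by
        congr 1
        funext j
        rw [zero_smul, add_zero]
      have h1 : ∀ᶠ ε in 𝓝 (0 : ℝ), EE E (fun j => c' j + ε • ref) < sInf (Adm h Pr E u I) + δ := by
        refine hcont.continuousAt.eventually_lt continuousAt_const ?_
        rw [h0]
        exact hr
      have h2 : ∀ᶠ ε in 𝓝[>] (0 : ℝ), EE E (fun j => c' j + ε • ref) < sInf (Adm h Pr E u I) + δ :=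
        h1.filter_mono nhdsWithin_le_nhds
      filter_upwards [h2, self_mem_nhdsWithin] with ε hε hε0
      have hε0' : (0 : ℝ) < ε := hε0
      refine le_trans ?_ hε.le
      refine hMONO k B P h Pr E hMF _ _ (fun j b => hc0 _ _ hε0' b) (fun j b => ?_) (fun j => ?_)
      · rw [Finsupp.add_apply, Finsupp.smul_apply, smul_eq_mul]
        exact add_nonneg (hc'0 j b) (mul_nonneg hε0'.le (href b))
      · have h3 := hc2 (I j) ε hε0'
        have h4 : Le' Pr (fun v => u (I j) v + ε * hc h ref v) (fun v => hc h (c' j) v + ε * hc h ref v) :=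
          (hc'1 j).add (Le'.refl _)
        refine h3.trans (h4.mono (fun _ => le_rfl) fun v => ?_)
        rw [hc_add, hc_smul]
    -- step 3
    have step3 : ∀ δ : ℝ, 0 < δ → EE E (fun _ => x) ≤
        ∑ I : Fin (k + 1) → ι, (∏ j, (κ * t (I j))) * (sInf (Adm h Pr E u I) + δ) := by
      intro δ hδ
      have h1 : ∀ᶠ ε in 𝓝[>] (0 : ℝ), ∀ I : Fin (k + 1) → ι,
          EE E (fun j => c (I j) ε) ≤ sInf (Adm h Pr E u I) + δ := eventually_all.2 (step2 δ hδ)
      obtain ⟨ε, hε1, hε2⟩ := (h1.and self_mem_nhdsWithin).exists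
      have hε0 : (0 : ℝ) < ε := hε2
      refine (step1 (fun i => c i ε) (fun i b => hc0 i ε hε0 b) (fun i => hc1 i ε hε0)).trans ?_
      refine Finset.sum_le_sum fun I _ => ?_
      exact mul_le_mul_of_nonneg_left (hε1 I) (Finset.prod_nonneg fun j _ => mul_nonneg hκ (ht _).le)
    have hcont : Continuous fun δ : ℝ =>
        ∑ I : Fin (k + 1) → ι, (∏ j, (κ * t (I j))) * (sInf (Adm h Pr E u I) + δ) := by
      refine continuous_finsetSum _ fun I _ => ?_
      exact continuous_const.mul (continuous_const.add continuous_id)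
    have hlim : Tendsto (fun δ : ℝ =>
        ∑ I : Fin (k + 1) → ι, (∏ j, (κ * t (I j))) * (sInf (Adm h Pr E u I) + δ)) (𝓝[>] 0)
        (𝓝 (∑ I : Fin (k + 1) → ι, (∏ j, (κ * t (I j))) * (sInf (Adm h Pr E u I) + 0))) :=
      (hcont.tendsto 0).mono_left nhdsWithin_le_nhds
    have hfin := ge_of_tendsto hlim (by
      filter_upwards [self_mem_nhdsWithin] with δ hδ
      exact step3 δ hδ)
    refine hfin.trans (le_of_eq ?_)
    rw [Finset.mul_sum]
    refine Finset.sum_congr rfl fun I _ => ?_
    rw [Finset.prod_mul_distrib, Finset.prod_const, Finset.card_univ, Fintype.card_fin, add_zero, mul_assoc]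

end Pool.Agent.Helper61.AD
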